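import Pool.Agent.helper80.HH.SpecA

open MeasureTheory Set

set_option autoImplicit false

namespace Pool.Agent.HH

noncomputable section

theorem ACV_mem (L : ℕ) (Y : Set ℝ) (a : ℤ) : a ∈ ac L Y ↔ ((0 : ℤ) ≤ a ∧ a ≤ L) ∧ ∃ v ∈ Y, ⌊v * L⌋ = a := by
  classical
  rw [ac, Finset.mem_filter, Finset.mem_Icc]

theorem ACV_proof : ACV_stmt := by
  classical
  intro C m L Y hC hL1 hL2 hY
  have hE0 : 0 < Real.exp (4000 * m) := Real.exp_pos _
  have hL0 : (0 : ℝ) < L := lt_of_lt_of_le hE0 hL1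
  have hLi : 1 / (L : ℝ) ≤ Real.exp (-(4000 * m)) := by
    rw [Real.exp_neg, ← one_div]
    exact one_div_le_one_div_of_le hE0 hL1
  have hfl : ∀ (x : ℝ) (a : ℤ), ⌊x * L⌋ = a → (a : ℝ) / L ≤ x ∧ x < a / L + 1 / L := by
    intro x a hx
    rw [Int.floor_eq_iff] at hx
    constructor
    · rw [div_le_iff₀ hL0]; exact hx.1
    · rw [← add_div, lt_div_iff₀ hL0]; exact hx.2
  refine ⟨?_, ?_, ?_, ?_⟩
  · intro a
    refine le_trans ?_ (hY.v1 ((a : ℝ) / L))
    refine measureReal_mono ?_ ?_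
    · intro x hx
      obtain ⟨hx1, hx2⟩ := hx
      obtain ⟨h1, h2⟩ := hfl x a hx2
      have h4 : 0 < Real.exp (-(4000 * (m : ℝ))) := Real.exp_pos _
      refine ⟨hx1, ?_, ?_⟩ <;> linarith
    · exact ne_top_of_le_ne_top (by simp) (measure_mono (Set.inter_subset_right))
  · -- the number of cells
    have hch : ∀ a : ℤ, ∃ x : ℝ, a ∈ ac L Y → x ∈ Y ∧ ⌊x * L⌋ = a := by
      intro a
      by_cases ha : a ∈ ac L Y
      · obtain ⟨_, x, hx1, hx2⟩ := (ACV_mem L Y a).mp ha
        exact ⟨x, fun _ => ⟨hx1, hx2⟩⟩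
      · exact ⟨0, fun h => absurd h ha⟩
    choose x hx using hch
    have hcl := hY.cl 0 4000 (by norm_num) le_rfl (1 / 2) ((ac L Y).image fun a => ⌊x a * Real.exp (4000 * m)⌋) (by
      intro k hk
      rw [Finset.mem_image] at hk
      obtain ⟨a, ha, hak⟩ := hk
      have hxa := hx a ha
      have h01 := hY.sb hxa.1
      refine ⟨x a, hxa.1, ?_, ?_⟩
      · rw [show (-(((0 : ℕ) : ℝ) * m)) = 0 by push_cast; ring, Real.exp_zero, abs_le]
        constructor <;> linarith [h01.1, h01.2]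
      · push_cast
        exact hak)
    push_cast at hcl
    rw [show ((4000 : ℝ) - 0) * m = 4000 * m by ring] at hcl
    have hfib : ∀ c ∈ (ac L Y).image (fun a => ⌊x a * Real.exp (4000 * m)⌋), ((ac L Y).filter fun a => ⌊x a * Real.exp (4000 * m)⌋ = c).card ≤ ⌊C⌋₊ + 2 := by
      intro c _
      have hsub : ((ac L Y).filter fun a => ⌊x a * Real.exp (4000 * m)⌋ = c) ⊆ Finset.Icc ⌊(c : ℝ) / Real.exp (4000 * m) * L⌋ (⌊(c : ℝ) / Real.exp (4000 * m) * L⌋ + (⌊C⌋₊ + 1 : ℕ)) := by
        intro a ha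
        rw [Finset.mem_filter] at ha
        obtain ⟨ha1, ha2⟩ := ha
        have hxa := hx a ha1
        rw [Int.floor_eq_iff] at ha2
        have h1 : (c : ℝ) / Real.exp (4000 * m) ≤ x a := by rw [div_le_iff₀ hE0]; exact ha2.1
        have h2 : x a < (c : ℝ) / Real.exp (4000 * m) + 1 / Real.exp (4000 * m) := by rw [← add_div, lt_div_iff₀ hE0]; exact ha2.2
        rw [Finset.mem_Icc, ← hxa.2]
        constructor
        · exact Int.floor_le_floor (mul_le_mul_of_nonneg_right h1 hL0.le)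
        · have h3 : x a * L ≤ (c : ℝ) / Real.exp (4000 * m) * L + C := by
            have : x a * L ≤ ((c : ℝ) / Real.exp (4000 * m) + 1 / Real.exp (4000 * m)) * L := mul_le_mul_of_nonneg_right h2.le hL0.le
            have h5 : 1 / Real.exp (4000 * m) * L ≤ C := by
              rw [div_mul_eq_mul_div, one_mul, div_le_iff₀ hE0]
              exact hL2
            linarith [add_mul ((c : ℝ) / Real.exp (4000 * m)) (1 / Real.exp (4000 * m)) (L : ℝ)]
          have h4 : x a * L < (⌊(c : ℝ) / Real.exp (4000 * m) * L⌋ : ℝ) + 1 + (⌊C⌋₊ + 1) := by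
            have h6 := Int.lt_floor_add_one ((c : ℝ) / Real.exp (4000 * m) * L)
            have h7 := Nat.lt_floor_add_one C
            linarith
          have h5 : ⌊x a * (L : ℝ)⌋ < ⌊(c : ℝ) / Real.exp (4000 * m) * L⌋ + 1 + ((⌊C⌋₊ : ℤ) + 1) := by
            rw [Int.floor_lt]
            push_cast
            exact h4
          push_cast
          omega
      refine (Finset.card_le_card hsub).trans ?_
      rw [Int.card_Icc]
      omega
    have hcard := Finset.card_le_mul_card_image (s := ac L Y) (f := fun a => ⌊x a * Real.exp (4000 * m)⌋) (⌊C⌋₊ + 2) hfib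
    have hCf : ((⌊C⌋₊ : ℕ) : ℝ) ≤ C := Nat.floor_le (by linarith)
    calc ((ac L Y).card : ℝ) ≤ (((⌊C⌋₊ + 2) * ((ac L Y).image fun a => ⌊x a * Real.exp (4000 * m)⌋).card : ℕ) : ℝ) := by exact_mod_cast hcard
      _ = ((⌊C⌋₊ : ℝ) + 2) * (((ac L Y).image fun a => ⌊x a * Real.exp (4000 * m)⌋).card : ℝ) := by push_cast; ring
      _ ≤ (C + 2) * (C * Real.exp ((1 / 2 + eta) * (4000 * m))) := by
          refine mul_le_mul (by linarith) hcl (by positivity) (by linarith)
      _ = C * (C + 2) * Real.exp ((1 / 2 + eta) * (4000 * m)) := by ring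
  · intro a ha
    exact ((ACV_mem L Y a).mp ha).1
  · intro i j hij hj v K hK
    have him : (0 : ℝ) < Real.exp (-(i * m)) := Real.exp_pos _
    have hm0 : (0 : ℝ) ≤ m := Nat.cast_nonneg _
    have hi4 : (i : ℝ) ≤ 4000 := by exact_mod_cast (hij.le.trans hj)
    have hj4 : (j : ℝ) ≤ 4000 := by exact_mod_cast hj
    have hLi2 : 1 / (L : ℝ) ≤ Real.exp (-(i * m)) := by
      refine hLi.trans (Real.exp_le_exp.mpr ?_)
      nlinarith
    have hjL : Real.exp (j * m) * (1 / L) ≤ 1 := by
      rw [mul_one_div, div_le_one hL0]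
      refine le_trans (Real.exp_le_exp.mpr ?_) hL1
      nlinarith
    have hch : ∀ k : ℤ, ∃ x : ℝ, k ∈ K → x ∈ Y ∧ |x - v| ≤ 2 * Real.exp (-(i * m)) ∧ (⌊x * Real.exp (j * m)⌋ = k ∨ ⌊x * Real.exp (j * m)⌋ = k + 1) := by
      intro k
      by_cases hk : k ∈ K
      · obtain ⟨a, ha, hav, hak⟩ := hK k hk
        obtain ⟨_, x, hx1, hx2⟩ := (ACV_mem L Y a).mp ha
        obtain ⟨h1, h2⟩ := hfl x a hx2
        refine ⟨x, fun _ => ⟨hx1, ?_, ?_⟩⟩
        · rw [abs_le] at hav ⊢
          constructor <;> linarith [hav.1, hav.2]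
        · rw [Int.floor_eq_iff] at hak
          have hej : 0 < Real.exp (j * m) := Real.exp_pos _
          have h3 : (a : ℝ) / L * Real.exp (j * m) ≤ x * Real.exp (j * m) := mul_le_mul_of_nonneg_right h1 hej.le
          have h4 : x * Real.exp (j * m) < (a : ℝ) / L * Real.exp (j * m) + 1 := by
            have : x * Real.exp (j * m) < ((a : ℝ) / L + 1 / L) * Real.exp (j * m) := mul_lt_mul_of_pos_right h2 hej
            linarith [add_mul ((a : ℝ) / L) (1 / (L : ℝ)) (Real.exp (j * m)), mul_comm (Real.exp (j * m)) (1 / (L : ℝ))]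
          have h5 : k ≤ ⌊x * Real.exp (j * m)⌋ := by rw [Int.le_floor]; linarith [hak.1]
          have h6 : ⌊x * Real.exp (j * m)⌋ < k + 2 := by
            rw [Int.floor_lt]; push_cast; linarith [hak.2]
          omega
      · exact ⟨0, fun h => absurd h hk⟩
    choose x hx using hch
    have hhalf : ∀ (K' : Finset ℤ) (v' : ℝ), K' ⊆ K → (∀ k ∈ K', |x k - v'| ≤ Real.exp (-(i * m))) → (K'.card : ℝ) ≤ 2 * (C * Real.exp ((1 / 2 + eta) * ((j - i) * m))) := by
      intro K' v' hK' hv'
      have hcl := hY.cl i j hij hj v' (K'.image fun k => ⌊x k * Real.exp (j * m)⌋) (by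
        intro c hc
        rw [Finset.mem_image] at hc
        obtain ⟨k, hk, hkc⟩ := hc
        exact ⟨x k, (hx k (hK' hk)).1, hv' k hk, hkc⟩)
      have hfib : ∀ c ∈ K'.image (fun k => ⌊x k * Real.exp (j * m)⌋), (K'.filter fun k => ⌊x k * Real.exp (j * m)⌋ = c).card ≤ 2 := by
        intro c _
        have hsub : (K'.filter fun k => ⌊x k * Real.exp (j * m)⌋ = c) ⊆ {c - 1, c} := by
          intro k hk
          rw [Finset.mem_filter] at hk
          have := (hx k (hK' hk.1)).2.2
          rw [Finset.mem_insert, Finset.mem_singleton]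
          omega
        exact (Finset.card_le_card hsub).trans Finset.card_le_two
      have hcard := Finset.card_le_mul_card_image (s := K') (f := fun k => ⌊x k * Real.exp (j * m)⌋) 2 hfib
      calc (K'.card : ℝ) ≤ ((2 * (K'.image fun k => ⌊x k * Real.exp (j * m)⌋).card : ℕ) : ℝ) := by exact_mod_cast hcard
        _ = 2 * ((K'.image fun k => ⌊x k * Real.exp (j * m)⌋).card : ℝ) := by push_cast; ring
        _ ≤ _ := mul_le_mul_of_nonneg_left hcl (by norm_num)
    have hsplit : K = (K.filter fun k => x k ≤ v) ∪ (K.filter fun k => ¬ x k ≤ v) := (Finset.filter_union_filter_not_eq _ K).symm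
    have h1 := hhalf (K.filter fun k => x k ≤ v) (v - Real.exp (-(i * m))) (Finset.filter_subset _ _) (by
      intro k hk
      rw [Finset.mem_filter] at hk
      have := (hx k hk.1).2.1
      rw [abs_le] at this ⊢
      constructor <;> linarith [this.1, this.2, hk.2])
    have h2 := hhalf (K.filter fun k => ¬ x k ≤ v) (v + Real.exp (-(i * m))) (Finset.filter_subset _ _) (by
      intro k hk
      rw [Finset.mem_filter] at hk
      have := (hx k hk.1).2.1
      have h3 := hk.2
      push Not at h3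
      rw [abs_le] at this ⊢
      constructor <;> linarith [this.1, this.2])
    have h3 : (K.card : ℝ) ≤ ((K.filter fun k => x k ≤ v).card : ℝ) + ((K.filter fun k => ¬ x k ≤ v).card : ℝ) := by
      have := Finset.card_union_le (K.filter fun k => x k ≤ v) (K.filter fun k => ¬ x k ≤ v)
      rw [← hsplit] at this
      exact_mod_cast this
    calc (K.card : ℝ) ≤ _ := h3
      _ ≤ 2 * (C * Real.exp ((1 / 2 + eta) * ((j - i) * m))) + 2 * (C * Real.exp ((1 / 2 + eta) * ((j - i) * m))) := add_le_add h1 h2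
      _ = 4 * C * Real.exp ((1 / 2 + eta) * ((j - i) * m)) := by ring

end

end Pool.Agent.HH
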