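import Pool.Agent.helper67.HH.RCV
import Pool.Agent.helper57.HH.RRU
import Pool.Agent.helper30.HH.RPL
import Pool.Agent.helper69.HH.RML
import Pool.Agent.helper98.HH.RLO
import Pool.Agent.helper72.HH.RMS
import Pool.Agent.helper83.HH.RKL
import Pool.Agent.helper71.HH.RCG
import Pool.Agent.helper3.HH.RDN
import Pool.Agent.helper15.HH.RNA
import Pool.Agent.helper45.HH.RNB
import Pool.Agent.helper49.HH.RNG
import Pool.Agent.helper51.HH.BGR
import Pool.Agent.helper50.HH.BV3
import Pool.Agent.helper32.HH.BFX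
import Pool.Agent.helper73.HH.BPW
import Pool.Agent.helper43.HH.BPG
import Pool.Agent.helper20.HH.BCS
import Pool.Agent.helper57.HH.BOU
import Pool.Agent.helper31.HH.BMU
import Pool.Agent.helper27.HH.BQW
import Pool.Agent.helper83.HH.BMF
import Pool.Agent.helper65.HH.BGC
import Pool.Agent.helper48.HH.BWC
import Pool.Agent.helper40.HH.BFI
import Pool.Agent.helper22.HH.AVI
import Pool.Agent.helper48.HH.ABG
import Pool.Agent.helper59.HH.ACV
import Pool.Agent.helper51.HH.AHK
import Pool.Agent.helper96.HH.AHL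

/-!
# MP_07c750, project HH: assembly of the pure part (blocks R, B, A): `PA_HAL : HAL_stmt` without hypotheses
-/

set_option autoImplicit false

namespace Pool.Agent.HH

theorem PA_RCV : RCV_stmt := RCV_proof

theorem PA_RRU : RRU_stmt := RRU_proof PA_RCV

theorem PA_RPL : RPL_stmt := RPL_proof PA_RCV

theorem PA_RML : RML_stmt := RML_proof PA_RCV PA_RRU

theorem PA_RLO : RLO_stmt := RLO_proof PA_RCV

theorem PA_RMS : RMS_stmt := RMS_proof PA_RCV PA_RPL PA_RML PA_RLO

theorem PA_RKL : RKL_stmt := RKL_proof PA_RCV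

theorem PA_RCG : RCG_stmt := RCG_proof PA_RLO

theorem PA_RDN : RDN_stmt := RDN_proof

theorem PA_RNA : RNA_stmt := RNA_proof PA_RCV PA_RMS PA_RKL

theorem PA_RNB : RNB_stmt := RNB_proof PA_RCV PA_RMS PA_RCG PA_RDN PA_RKL

theorem PA_RNG : RNG_stmt := RNG_proof PA_RNA PA_RNB

theorem PA_BGR : BGR_stmt := BGR_proof

theorem PA_BV3 : BV3_stmt := BV3_proof

theorem PA_BFX : BFX_stmt := BFX_proof PA_BGR

theorem PA_BPW : BPW_stmt := BPW_proof

theorem PA_BPG : BPG_stmt := BPG_proof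

theorem PA_BCS : BCS_stmt := BCS_proof

theorem PA_BOU : BOU_stmt := BOU_proof PA_BV3 PA_BFX PA_BPW PA_BPG PA_BCS

theorem PA_BMU : BMU_stmt := BMU_proof PA_RCV PA_RRU

theorem PA_BQW : BQW_stmt := BQW_proof

theorem PA_BMF : BMF_stmt := BMF_proof PA_RCV PA_BQW

theorem PA_BGC : BGC_stmt := BGC_proof PA_RCV

theorem PA_BWC : BWC_stmt := BWC_proof

theorem PA_BFI : BFI_stmt := BFI_proof PA_BOU PA_BMU PA_BQW PA_BMF PA_BGC PA_BWC PA_RNG PA_RCV

theorem PA_AVI : AVI_stmt := AVI_proof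

theorem PA_ABG : ABG_stmt := ABG_proof

theorem PA_ACV : ACV_stmt := ACV_proof

theorem PA_AHK : AHK_stmt := AHK_proof PA_AVI PA_ABG PA_ACV

theorem PA_HAL : HAL_stmt := AHL_proof PA_AHK PA_BFI

end Pool.Agent.HH
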