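import Pool.Agent.helper17.HH.SpecR

open scoped Pointwise

set_option autoImplicit false

namespace Pool.Agent.HH

noncomputable section

/-- covering by cells -/
theorem RNG_cover (h : RCV_stmt) (δ d B : ℝ) (E : Finset ℝ) (hd : 0 < d) (hB : ∀ x0 : ℝ, (cov δ (lc E x0 d) : ℝ) ≤ B) : (cov δ E : ℝ) ≤ cov d E * B := by
  classical
  have h1 : cel δ E ⊆ (cel d E).biUnion fun k => cel δ (E.filter fun x => ⌊x / d⌋ = k) := by
    intro c hc
    simp only [cel, Finset.mem_image] at hc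
    obtain ⟨x, hx, hxc⟩ := hc
    simp only [Finset.mem_biUnion, cel, Finset.mem_image, Finset.mem_filter]
    exact ⟨⌊x / d⌋, ⟨x, hx, rfl⟩, x, ⟨hx, rfl⟩, hxc⟩
  have h2 : cov δ E ≤ ∑ k ∈ cel d E, cov δ (E.filter fun x => ⌊x / d⌋ = k) := (Finset.card_le_card h1).trans Finset.card_biUnion_le
  have h3 : ∀ k ∈ cel d E, (cov δ (E.filter fun x => ⌊x / d⌋ = k) : ℝ) ≤ B := by
    intro k _
    refine le_trans ?_ (hB (k * d))
    have hs : (E.filter fun x => ⌊x / d⌋ = k) ⊆ lc E (k * d) d := by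
      intro x hx
      rw [Finset.mem_filter] at hx
      obtain ⟨hx1, hx2⟩ := hx
      rw [lc, Finset.mem_filter]
      refine ⟨hx1, ?_⟩
      have ha : (k : ℝ) ≤ x / d := by rw [← hx2]; exact Int.floor_le _
      have hb : x / d < k + 1 := by rw [← hx2]; exact Int.lt_floor_add_one _
      rw [le_div_iff₀ hd] at ha
      rw [div_lt_iff₀ hd] at hb
      rw [abs_le]
      constructor <;> nlinarith
    exact_mod_cast h.mo δ _ _ hs
  calc (cov δ E : ℝ) ≤ ((∑ k ∈ cel d E, cov δ (E.filter fun x => ⌊x / d⌋ = k) : ℕ) : ℝ) := by exact_mod_cast h2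
    _ = ∑ k ∈ cel d E, (cov δ (E.filter fun x => ⌊x / d⌋ = k) : ℝ) := by push_cast; rfl
    _ ≤ ∑ k ∈ cel d E, B := Finset.sum_le_sum h3
    _ = cov d E * B := by rw [Finset.sum_const, nsmul_eq_mul]; rfl

/-- lower bound at all scales -/
theorem RNG_lower (h : RCV_stmt) (q N : ℝ) (E : Finset ℝ) (hq : 1 ≤ q) (hN : q ^ 1000 = N) (hup : ∀ s x0 : ℝ, 1 / N ≤ s → s ≤ 1 → (cov (1 / N) (lc E x0 s) : ℝ) ≤ q * Real.sqrt (s * N))
    (hlo : q ^ 499 ≤ cov (1 / N) E) (d : ℝ) (hd : 1 / N ≤ d) (hd1 : d ≤ 1) : Real.sqrt (1 / d) ≤ q ^ 2 * cov d E := by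
  have hq0 : 0 < q := by linarith
  have hN0 : 0 < N := by rw [← hN]; positivity
  have hd0 : 0 < d := lt_of_lt_of_le (by positivity) hd
  have h1 := RNG_cover h (1 / N) d (q * Real.sqrt (d * N)) E hd0 (fun x0 => hup d x0 hd hd1)
  have h2 : Real.sqrt (d * N) = Real.sqrt d * q ^ 500 := by
    rw [Real.sqrt_mul hd0.le, ← hN, show q ^ 1000 = (q ^ 500) ^ 2 by ring, Real.sqrt_sq (by positivity)]
  have hsd : 0 < Real.sqrt d := Real.sqrt_pos.mpr hd0
  have h3 : q ^ 499 ≤ (cov d E : ℝ) * (q * (Real.sqrt d * q ^ 500)) := by rw [← h2]; exact hlo.trans h1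
  have h4 : q ^ 499 * 1 ≤ q ^ 499 * (q ^ 2 * cov d E * Real.sqrt d) := by
    calc q ^ 499 * 1 = q ^ 499 := by ring
      _ ≤ _ := h3
      _ = q ^ 499 * (q ^ 2 * cov d E * Real.sqrt d) := by ring
  have h5 : 1 ≤ q ^ 2 * cov d E * Real.sqrt d := le_of_mul_le_mul_left h4 (by positivity)
  rw [Real.sqrt_div zero_le_one, Real.sqrt_one, div_le_iff₀ hsd]
  exact h5

/-- the choice of `N0` -/
theorem RNG_big (A : ℝ) (hA : 1 ≤ A) : ∃ N0 : ℝ, 8 ^ 5 ≤ N0 ∧ ∀ N : ℝ, N0 ≤ N → A * (1 + Real.log N) < N ^ ((58 : ℝ) / 1000) := by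
  have h1 : (fun N : ℝ => A * (1 + Real.log N)) =o[Filter.atTop] fun N : ℝ => N ^ ((58 : ℝ) / 1000) := by
    have ha : (fun N : ℝ => (1 : ℝ)) =o[Filter.atTop] fun N : ℝ => N ^ ((58 : ℝ) / 1000) := by
      rw [Asymptotics.isLittleO_const_left]
      right
      have := tendsto_rpow_atTop (show (0 : ℝ) < 58 / 1000 by norm_num)
      exact tendsto_norm_atTop_atTop.comp this
    have hb := isLittleO_log_rpow_atTop (show (0 : ℝ) < 58 / 1000 by norm_num)
    exact (ha.add hb).const_mul_left A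
  have h2 := h1.bound (show (0 : ℝ) < 1 / 2 by norm_num)
  rw [Filter.eventually_atTop] at h2
  obtain ⟨a, ha⟩ := h2
  refine ⟨max a (8 ^ 5), le_max_right _ _, fun N hN => ?_⟩
  have h3 := ha N ((le_max_left _ _).trans hN)
  have hN1 : (8 : ℝ) ^ 5 ≤ N := (le_max_right _ _).trans hN
  have hN0 : 0 < N := by linarith [show (0 : ℝ) < 8 ^ 5 by norm_num]
  have h4 : 0 < N ^ ((58 : ℝ) / 1000) := Real.rpow_pos_of_pos hN0 _
  have h5 : 0 ≤ Real.log N := Real.log_nonneg (by linarith [show (1 : ℝ) ≤ 8 ^ 5 by norm_num])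
  rw [Real.norm_of_nonneg (by positivity), Real.norm_of_nonneg h4.le] at h3
  linarith

theorem RNG_proof (h : RCV_stmt) (h1 : RNA_stmt) (h2 : RNB_stmt) : RNG_stmt := by
  obtain ⟨CA, hCA, hA⟩ := h1
  obtain ⟨CB, hCB, hB⟩ := h2
  obtain ⟨N0, hN08, hN0⟩ := RNG_big (65536 * (CA + CB)) (by linarith)
  refine ⟨N0, le_trans (by norm_num) hN08, ?_⟩
  intro N G M hN hG hGup hGlo hM hMup hMul
  by_contra hcon
  push Not at hcon
  have hN8 : (8 : ℝ) ^ 5 ≤ N := hN08.trans hN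
  have hNpos : 0 < N := by linarith [show (0 : ℝ) < 8 ^ 5 by norm_num]
  have hN1 : 1 ≤ N := by linarith [show (1 : ℝ) ≤ 8 ^ 5 by norm_num]
  set q : ℝ := N ^ (1 / 1000 : ℝ) with hqdef
  have hq0 : 0 < q := Real.rpow_pos_of_pos hNpos _
  have hq1 : 1 ≤ q := Real.one_le_rpow hN1 (by norm_num)
  have hpw : ∀ (n : ℕ) (r : ℝ), r = 1 / 1000 * n → N ^ r = q ^ n := by
    intro n r hr
    rw [hr, Real.rpow_mul hNpos.le, Real.rpow_natCast]
  have hqN : q ^ 1000 = N := by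
    rw [← hpw 1000 1 (by norm_num), Real.rpow_one]
  have hq499 : N ^ (1 / 2 - 1 / 1000 : ℝ) = q ^ 499 := hpw 499 _ (by norm_num)
  have hq58 : N ^ ((58 : ℝ) / 1000) = q ^ 58 := hpw 58 _ (by norm_num)
  rw [hq499] at hcon hGlo
  have hbig := hN0 N hN
  rw [hq58] at hbig
  have hlog : 0 ≤ Real.log N := Real.log_nonneg hN1
  have hbig1 : 65536 * (CA + CB) < q ^ 58 := by nlinarith
  -- the local bounds at the scale 1/N
  have hGup' : ∀ s x0 : ℝ, 1 / N ≤ s → s ≤ 1 → (cov (1 / N) (lc G x0 s) : ℝ) ≤ q * Real.sqrt (s * N) := by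
    intro s x0 hs hs1
    have := hGup (1 / N) s x0 le_rfl hs hs1
    rwa [show s / (1 / N) = s * N by field_simp] at this
  have hGl := RNG_lower h q N G hq1 hqN hGup' hGlo
  have hMl := RNG_lower h q N M hq1 hqN hMup hcon.le
  have hδ0 : 0 < 1 / N := by positivity
  have hδ1 : 1 / N ≤ 1 := by rw [div_le_one hNpos]; exact hN1
  have hD1 : 1 ≤ 4 * q ^ 2 := by nlinarith [one_le_pow₀ hq1 (n := 2)]
  have hGC : GC G (1 / N) (4 * q ^ 2) := by
    refine ⟨hG, ?_, ?_⟩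
    · intro d s x0 hd hds hs
      refine (hGup d s x0 hd hds hs).trans ?_
      refine mul_le_mul_of_nonneg_right ?_ (Real.sqrt_nonneg _)
      nlinarith
    · intro d hd hd1
      have hl := hGl d hd hd1
      have hs0 := Real.sqrt_nonneg (1 / d)
      rw [div_mul_eq_mul_div, one_mul, div_le_iff₀ (by positivity)]
      have : (0 : ℝ) ≤ q ^ 2 * cov d G := by positivity
      nlinarith
  have hMU : ∀ m ∈ M, MU G (1 / N) q m := fun m hm => ⟨(hM m hm).1, (hM m hm).2, hMul m hm⟩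
  -- the constants
  set r1 : ℝ := 1 / q ^ 200 with hr1
  have hr10 : 0 < r1 := by positivity
  have hr11 : r1 ≤ 1 := by rw [hr1, div_le_one (by positivity)]; exact one_le_pow₀ hq1
  have hδr : 1 / N ≤ r1 := by
    rw [hr1, ← hqN]
    exact one_div_le_one_div_of_le (by positivity) (pow_le_pow_right₀ hq1 (by norm_num))
  have hδr2 : 1 / N ≤ r1 * r1 := by
    rw [hr1, ← hqN, show 1 / q ^ 200 * (1 / q ^ 200) = 1 / q ^ 400 by field_simp]
    exact one_div_le_one_div_of_le (by positivity) (pow_le_pow_right₀ hq1 (by norm_num))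
  have hδr3 : 1 / N ≤ r1 * r1 ^ 2 := by
    rw [hr1, ← hqN, show 1 / q ^ 200 * (1 / q ^ 200) ^ 2 = 1 / q ^ 600 by field_simp]
    exact one_div_le_one_div_of_le (by positivity) (pow_le_pow_right₀ hq1 (by norm_num))
  have hr8 : r1 ≤ 1 / 8 := by
    rw [hr1]
    refine one_div_le_one_div_of_le (by norm_num) ?_
    by_contra hc
    push Not at hc
    have : (q ^ 200) ^ 5 < 8 ^ 5 := pow_lt_pow_left₀ hc (by positivity) (by norm_num)
    rw [← pow_mul, show 200 * 5 = 1000 by norm_num, hqN] at this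
    linarith
  have hsr : Real.sqrt r1 = 1 / q ^ 100 := by
    rw [hr1, show (1 : ℝ) / q ^ 200 = (1 / q ^ 100) ^ 2 by field_simp, Real.sqrt_sq (by positivity)]
  have hsr' : Real.sqrt (1 / r1) = q ^ 100 := by
    rw [hr1, show (1 : ℝ) / (1 / q ^ 200) = (q ^ 100) ^ 2 by rw [one_div_one_div]; ring, Real.sqrt_sq (by positivity)]
  have hsδ : Real.sqrt (1 / N) = 1 / q ^ 500 := by
    rw [← hqN, show (1 : ℝ) / q ^ 1000 = (1 / q ^ 500) ^ 2 by field_simp, Real.sqrt_sq (by positivity)]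
  have hCAB : CA ≤ CA + CB ∧ CB ≤ CA + CB := ⟨by linarith, by linarith⟩
  by_cases hcase : ∃ x ∈ QQ M r1, ∃ x' : ℝ, (x' = x / 2 ∨ x' = (x + 1) / 2) ∧ ∀ y ∈ QQ M r1, r1 < |x' - y|
  · obtain ⟨x, hx, x', hx', hy⟩ := hcase
    have hc : CA * q ^ 26 * (4 * q ^ 2) ^ 4 * Real.sqrt (1 / r1) * Real.sqrt (1 / N) ≤ 1 := by
      rw [hsr', hsδ]
      have : CA * q ^ 26 * (4 * q ^ 2) ^ 4 * q ^ 100 * (1 / q ^ 500) = 256 * CA * q ^ 134 / q ^ 500 := by ring
      rw [this, div_le_one (by positivity)]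
      calc 256 * CA * q ^ 134 ≤ q ^ 58 * q ^ 134 := by
            refine mul_le_mul_of_nonneg_right ?_ (by positivity)
            nlinarith
        _ = q ^ 192 := by ring
        _ ≤ q ^ 500 := pow_le_pow_right₀ hq1 (by norm_num)
    obtain ⟨δ', hd1, hd2, hcov⟩ := hA G M (1 / N) (4 * q ^ 2) q r1 r1 x x' hδ0 hδ1 hD1 hq1 hGC hMU hr10 hr11 hr10 hr11 hδr3 hδr hx hx' hy hc
    have hd'0 : 0 < δ' := lt_of_lt_of_le hδ0 hd1
    have hd'1 : δ' ≤ 1 := by
      refine hd2.trans ?_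
      rw [div_le_one hr10]; exact hδr
    have e1 := hMl δ' hd1 hd'1
    have e2 := hMl r1 hδr hr11
    rw [hsr'] at e2
    have hs0 : 0 < Real.sqrt (1 / δ') := Real.sqrt_pos.mpr (by positivity)
    have hlogN : Real.log (1 / (1 / N)) = Real.log N := by rw [one_div_one_div]
    rw [hlogN] at hcov
    have e3 : Real.sqrt (1 / δ') * q ^ 100 ≤ (q ^ 2 * cov δ' M) * (q ^ 2 * cov r1 M) := mul_le_mul e1 e2 (by positivity) (by positivity)
    have e4 : Real.sqrt (1 / δ') * q ^ 100 ≤ q ^ 4 * (CA * q ^ 26 * (4 * q ^ 2) ^ 6 * Real.sqrt (1 / δ') * (1 + Real.log N)) := by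
      refine e3.trans ?_
      rw [show q ^ 2 * (cov δ' M : ℝ) * (q ^ 2 * cov r1 M) = q ^ 4 * (cov δ' M * cov r1 M) by ring]
      exact mul_le_mul_of_nonneg_left hcov (by positivity)
    have e5 : (Real.sqrt (1 / δ') * q ^ 42) * q ^ 58 ≤ (Real.sqrt (1 / δ') * q ^ 42) * (4096 * CA * (1 + Real.log N)) := by
      calc (Real.sqrt (1 / δ') * q ^ 42) * q ^ 58 = Real.sqrt (1 / δ') * q ^ 100 := by ring
        _ ≤ _ := e4
        _ = (Real.sqrt (1 / δ') * q ^ 42) * (4096 * CA * (1 + Real.log N)) := by ring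
    have e6 : q ^ 58 ≤ 4096 * CA * (1 + Real.log N) := le_of_mul_le_mul_left e5 (by positivity)
    have e7 : 4096 * CA * (1 + Real.log N) ≤ 65536 * (CA + CB) * (1 + Real.log N) := by
      refine mul_le_mul_of_nonneg_right ?_ (by positivity)
      nlinarith
    linarith
  · push Not at hcase
    have hQ : ∀ x ∈ QQ M r1, (∃ y ∈ QQ M r1, |y - x / 2| ≤ r1) ∧ ∃ y ∈ QQ M r1, |y - (x + 1) / 2| ≤ r1 := by
      intro x hx
      constructor
      · obtain ⟨y, hy, hy2⟩ := hcase x hx (x / 2) (Or.inl rfl)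
        exact ⟨y, hy, by rw [abs_sub_comm]; exact hy2⟩
      · obtain ⟨y, hy, hy2⟩ := hcase x hx ((x + 1) / 2) (Or.inr rfl)
        exact ⟨y, hy, by rw [abs_sub_comm]; exact hy2⟩
    have hsep : ∃ m5 ∈ M, ∃ m6 ∈ M, r1 ≤ |m5 - m6| := by
      by_contra hno
      push Not at hno
      have hne : M.Nonempty := by
        by_contra hem
        rw [Finset.not_nonempty_iff_eq_empty] at hem
        rw [hem] at hcon
        have : (cov (1 / N) (∅ : Finset ℝ) : ℝ) = 0 := by simp [cov, cel]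
        rw [this] at hcon
        linarith [show (0 : ℝ) < q ^ 499 by positivity]
      obtain ⟨m0, hm0⟩ := hne
      have hlc : lc M m0 r1 = M := by
        rw [lc, Finset.filter_eq_self]
        intro x hx
        exact (hno x hx m0 hm0).le
      have hle := hMup r1 m0 hδr hr11
      have hsN : Real.sqrt N = q ^ 500 := by
        rw [← hqN, show q ^ 1000 = (q ^ 500) ^ 2 by ring, Real.sqrt_sq (by positivity)]
      rw [hlc, Real.sqrt_mul hr10.le, hsr, hsN] at hle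
      have : q ^ 499 < q * (1 / q ^ 100 * q ^ 500) := lt_of_lt_of_le hcon hle
      rw [show q * (1 / q ^ 100 * q ^ 500) = q ^ 401 by field_simp] at this
      exact absurd (pow_le_pow_right₀ hq1 (show 401 ≤ 499 by norm_num)) (not_le.mpr this)
    have hc : CB * q ^ 26 * (4 * q ^ 2) ^ 6 * Real.sqrt r1 ≤ 1 := by
      rw [hsr]
      have : CB * q ^ 26 * (4 * q ^ 2) ^ 6 * (1 / q ^ 100) = 4096 * CB * q ^ 38 / q ^ 100 := by ring
      rw [this, div_le_one (by positivity)]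
      calc 4096 * CB * q ^ 38 ≤ q ^ 58 * q ^ 38 := by
            refine mul_le_mul_of_nonneg_right ?_ (by positivity)
            nlinarith
        _ = q ^ 96 := by ring
        _ ≤ q ^ 100 := pow_le_pow_right₀ hq1 (by norm_num)
    have hfin := hB G M (1 / N) (4 * q ^ 2) q r1 r1 hδ0 hδ1 hD1 hq1 hGC hMU hr10 hr11 hr10 hr8 hδr2 hδr hsep hQ hc
    have hlr : Real.log (1 / r1) ≤ Real.log N := by
      refine Real.log_le_log (by positivity) ?_
      rw [div_le_iff₀ hr10]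
      rw [div_le_iff₀ hNpos] at hδr
      linarith [mul_comm N r1]
    have hlr0 : 0 ≤ Real.log (1 / r1) := Real.log_nonneg (by rw [le_div_iff₀ hr10]; linarith)
    rw [hsr] at hfin
    have e1 : CB * q ^ 26 * (4 * q ^ 2) ^ 8 * (1 / q ^ 100) * (1 + Real.log (1 / r1)) = 65536 * CB * (1 + Real.log (1 / r1)) / q ^ 58 := by
      field_simp
      ring
    rw [e1, le_div_iff₀ (by positivity), one_mul] at hfin
    have e2 : 65536 * CB * (1 + Real.log (1 / r1)) ≤ 65536 * (CA + CB) * (1 + Real.log N) := by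
      refine mul_le_mul ?_ (by linarith) (by linarith) (by linarith)
      nlinarith
    linarith

end

end Pool.Agent.HH
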